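import Pool.Agent.GM53.Defs

/-! Inclusion-exclusion: the number of integers of an interval without prime factor `≤ z` is
`length / mert z` up to `2 ^ π(z)`. -/

set_option autoImplicit false

namespace Pool.Agent.CG53

open Finset Pool.Agent.GM53

/-- integers of `[u, v)` that are divisible by no element of `S` -/
def fre (S : Finset ℕ) (u v : ℕ) : Finset ℕ := (Ico u v).filter (fun m => ∀ q ∈ S, ¬ q ∣ m)

/-- the least `k` with `u ≤ p k` -/
def cd (p u : ℕ) : ℕ := (u + p - 1) / p

lemma cd_le {p : ℕ} (hp : 1 ≤ p) (u k : ℕ) : cd p u ≤ k ↔ u ≤ p * k := by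
  unfold cd
  rw [← Nat.lt_succ_iff, Nat.div_lt_iff_lt_mul (by omega), Nat.succ_mul, mul_comm k p]
  omega

lemma cd_mono {p : ℕ} (hp : 1 ≤ p) {u v : ℕ} (h : u ≤ v) : cd p u ≤ cd p v := by
  rw [cd_le hp]
  exact h.trans ((cd_le hp v (cd p v)).1 le_rfl)

lemma cd_lo {p : ℕ} (hp : 1 ≤ p) (u : ℕ) : (u : ℝ) ≤ p * cd p u := by
  exact_mod_cast (cd_le hp u (cd p u)).1 le_rfl

lemma cd_hi {p : ℕ} (hp : 1 ≤ p) (u : ℕ) : (p : ℝ) * cd p u ≤ u + p - 1 := by
  have h : p * cd p u ≤ u + p - 1 := by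
    unfold cd
    exact Nat.mul_div_le _ _
  have h2 : ((p * cd p u : ℕ) : ℝ) ≤ ((u + p - 1 : ℕ) : ℝ) := by exact_mod_cast h
  rw [Nat.cast_sub (by omega)] at h2
  push_cast at h2
  exact h2

lemma fre_insert {S : Finset ℕ} {p : ℕ} (hp : p.Prime) (hS : ∀ q ∈ S, q.Prime) (hpS : p ∉ S)
    (u v : ℕ) : (fre (insert p S) u v).card + (fre S (cd p u) (cd p v)).card =
      (fre S u v).card := by
  have h1 : (fre S (cd p u) (cd p v)).card =
      ((fre S u v).filter (fun m => p ∣ m)).card := by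
    refine Finset.card_bij (fun k _ => p * k) ?_ ?_ ?_
    · intro k hk
      unfold fre at hk ⊢
      rw [mem_filter, mem_Ico] at hk
      rw [mem_filter, mem_filter, mem_Ico]
      refine ⟨⟨⟨(cd_le hp.one_lt.le u k).1 hk.1.1, ?_⟩, ?_⟩, Dvd.intro _ rfl⟩
      · by_contra h
        push Not at h
        have := (cd_le hp.one_lt.le v k).2 h
        omega
      · intro q hq hd
        rcases (hS q hq).dvd_mul.1 hd with h | h
        · have := (Nat.prime_dvd_prime_iff_eq (hS q hq) hp).1 h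
          exact hpS (this ▸ hq)
        · exact hk.2 q hq h
    · intro a _ b _ h
      exact Nat.eq_of_mul_eq_mul_left hp.pos h
    · intro m hm
      unfold fre at hm
      rw [mem_filter, mem_filter, mem_Ico] at hm
      obtain ⟨⟨⟨h1, h2⟩, h3⟩, k, rfl⟩ := hm
      refine ⟨k, ?_, rfl⟩
      unfold fre
      rw [mem_filter, mem_Ico]
      refine ⟨⟨(cd_le hp.one_lt.le u k).2 h1, ?_⟩, ?_⟩
      · by_contra h
        push Not at h
        have := (cd_le hp.one_lt.le v k).1 h
        omega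
      · intro q hq hd
        exact h3 q hq (hd.mul_left p)
  have h2 : fre (insert p S) u v = (fre S u v).filter (fun m => ¬ p ∣ m) := by
    ext m
    unfold fre
    rw [mem_filter, mem_filter, mem_filter]
    constructor
    · rintro ⟨h1, h2⟩
      exact ⟨⟨h1, fun q hq => h2 q (mem_insert_of_mem hq)⟩, h2 p (mem_insert_self _ _)⟩
    · rintro ⟨⟨h1, h2⟩, h3⟩
      refine ⟨h1, fun q hq => ?_⟩
      rcases mem_insert.1 hq with h | h
      · rw [h]; exact h3
      · exact h2 q h
  rw [h1, h2, add_comm]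
  exact Finset.card_filter_add_card_filter_not _

theorem fre_count (S : Finset ℕ) (hS : ∀ q ∈ S, q.Prime) : ∀ u v : ℕ, u ≤ v →
    |((fre S u v).card : ℝ) - ((v : ℝ) - u) * ∏ p ∈ S, (1 - 1 / (p : ℝ))| ≤ 2 ^ S.card - 1 := by
  induction S using Finset.induction_on with
  | empty =>
    intro u v huv
    have : fre ∅ u v = Ico u v := by
      unfold fre
      simp
    rw [this, Nat.card_Ico, Nat.cast_sub huv]
    simp
  | insert p S hpS ih =>
    intro u v huv
    have hp : p.Prime := hS p (mem_insert_self _ _)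
    have hS' : ∀ q ∈ S, q.Prime := fun q hq => hS q (mem_insert_of_mem hq)
    have hp1 : 1 ≤ p := hp.one_lt.le
    have hp0 : (0 : ℝ) < p := by exact_mod_cast hp.pos
    have h1 := ih hS' u v huv
    have h2 := ih hS' (cd p u) (cd p v) (cd_mono hp1 huv)
    have h3 := fre_insert hp hS' hpS u v
    have h3' : ((fre (insert p S) u v).card : ℝ) =
        (fre S u v).card - (fre S (cd p u) (cd p v)).card := by
      have : (((fre (insert p S) u v).card + (fre S (cd p u) (cd p v)).card : ℕ) : ℝ) =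
          ((fre S u v).card : ℝ) := by exact_mod_cast h3
      push_cast at this
      linarith
    obtain ⟨Q, hQ⟩ : ∃ Q, Q = ∏ p ∈ S, (1 - 1 / (p : ℝ)) := ⟨_, rfl⟩
    have hQ0 : 0 ≤ Q := by
      rw [hQ]
      refine prod_nonneg fun q hq => ?_
      have : (1 : ℝ) ≤ q := by exact_mod_cast (hS' q hq).one_lt.le
      rw [sub_nonneg, div_le_one (by linarith)]
      exact this
    have hQ1 : Q ≤ 1 := by
      rw [hQ]
      refine prod_le_one (fun q hq => ?_) fun q hq => ?_
      · have : (1 : ℝ) ≤ q := by exact_mod_cast (hS' q hq).one_lt.le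
        rw [sub_nonneg, div_le_one (by linarith)]
        exact this
      · have : (0 : ℝ) ≤ 1 / (q : ℝ) := by positivity
        linarith
    rw [prod_insert hpS, card_insert_of_notMem hpS, h3', ← hQ]
    rw [← hQ] at h1 h2
    have a1 := cd_lo hp1 u
    have a2 := cd_hi hp1 u
    have a3 := cd_lo hp1 v
    have a4 := cd_hi hp1 v
    have h4 : |((cd p v : ℝ) - cd p u) - ((v : ℝ) - u) / p| ≤ 1 := by
      have e : ((cd p v : ℝ) - cd p u) - ((v : ℝ) - u) / p =
          ((p * cd p v - v) - (p * cd p u - u)) / p := by field_simp; ring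
      rw [e, abs_div, abs_of_pos hp0, div_le_one hp0, abs_le]
      constructor <;> linarith
    have h5 : |(((cd p v : ℝ) - cd p u) - ((v : ℝ) - u) / p) * Q| ≤ 1 := by
      rw [abs_mul, abs_of_nonneg hQ0]
      calc _ ≤ 1 * 1 := mul_le_mul h4 hQ1 hQ0 zero_le_one
        _ = 1 := one_mul 1
    have e : ((fre S u v).card : ℝ) - (fre S (cd p u) (cd p v)).card -
        ((v : ℝ) - u) * ((1 - 1 / (p : ℝ)) * Q) =
        (((fre S u v).card : ℝ) - ((v : ℝ) - u) * Q) -
        (((fre S (cd p u) (cd p v)).card : ℝ) - ((cd p v : ℝ) - cd p u) * Q) -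
        (((cd p v : ℝ) - cd p u) - ((v : ℝ) - u) / p) * Q := by ring
    rw [e]
    rw [abs_le] at h1 h2 h5 ⊢
    have e2 : (2 : ℝ) ^ (S.card + 1) = 2 * 2 ^ S.card := by ring
    rw [e2]
    constructor <;> linarith [h1.1, h1.2, h2.1, h2.2, h5.1, h5.2]

/-- the number of integers prime to `primorial z` -/
theorem cop_count2 (z : ℕ) {u v : ℕ} (huv : u ≤ v) :
    |(((Ico u v).filter (fun m => m.Coprime (primorial z))).card : ℝ) -
      ((v : ℝ) - u) / mert z| ≤ 2 ^ ((range (z + 1)).filter Nat.Prime).card := by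
  obtain ⟨S, hS⟩ : ∃ S, S = (range (z + 1)).filter Nat.Prime := ⟨_, rfl⟩
  have hSp : ∀ q ∈ S, q.Prime := by
    intro q hq
    rw [hS] at hq
    exact (mem_filter.1 hq).2
  have h1 : (Ico u v).filter (fun m => m.Coprime (primorial z)) = fre S u v := by
    unfold fre
    refine filter_congr fun m _ => ?_
    unfold primorial
    rw [← hS, Nat.Coprime, ← Nat.Coprime, Nat.coprime_prod_right_iff]
    refine forall₂_congr fun q hq => ?_
    rw [Nat.coprime_comm]
    exact (hSp q hq).coprime_iff_not_dvd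
  have h2 := fre_count S hSp u v huv
  have h3 : ((v : ℝ) - u) / mert z = ((v : ℝ) - u) * ∏ p ∈ S, (1 - 1 / (p : ℝ)) := by
    unfold mert
    rw [← hS, prod_inv_distrib, div_inv_eq_mul]
  rw [h1, h3, ← hS]
  linarith

end Pool.Agent.CG53
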