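import Pool.Agent.CY53.Model
import Pool.Agent.CG53.Count

/-! Limits for a sieving limit `y n ≤ C log n`. -/

set_option autoImplicit false

namespace Pool.Agent.CG53

open Filter Topology Finset Pool.Agent.CR53 Pool.Agent.CY53

open Pool.Agent.GM53 (mert mert_pos mert_le)

lemma card_pi (z : ℕ) : ((range (z + 1)).filter Nat.Prime).card = Nat.primeCounting z := by
  unfold Nat.primeCounting Nat.primeCounting'
  rw [Nat.count_eq_card_filter_range]

/-- `mert (y n) / log n → 0` -/
lemma mert_lim2 {y : ℕ → ℕ} {C : ℝ} (hy : ∀ᶠ n : ℕ in atTop, (y n : ℝ) ≤ C * Real.log n) :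
    Tendsto (fun n : ℕ => mert (y n) / Real.log n) atTop (𝓝 0) := by
  obtain ⟨C2, hC2, hm⟩ := mert_le
  have hb : ∀ k : ℕ, mert k ≤ 1 + 2 * C2 * Real.sqrt k := by
    intro k
    rcases Nat.lt_or_ge k 2 with h | h
    · have h0 : (0 : ℝ) ≤ 2 * C2 * Real.sqrt k := by positivity
      interval_cases k
      · rw [mert_small.1]; linarith
      · rw [mert_small.2]; linarith
    · have h2 : (2 : ℝ) ≤ k := by exact_mod_cast h
      have h1 : Real.log k ≤ 2 * Real.sqrt k := by
        have := Real.log_le_rpow_div (show (0 : ℝ) ≤ k by linarith)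
          (show (0 : ℝ) < 1 / 2 by norm_num)
        rw [← Real.sqrt_eq_rpow] at this
        linarith
      have := hm k h
      have := mul_le_mul_of_nonneg_left h1 hC2.le
      linarith
  have h1 : Tendsto (fun n : ℕ => 1 / Real.log n +
      2 * C2 * Real.sqrt (max C 1) * (1 / Real.sqrt (Real.log n))) atTop
      (𝓝 (0 + 2 * C2 * Real.sqrt (max C 1) * 0)) :=
    t_invlog.add (t_invsqrtlog.const_mul _)
  rw [mul_zero, add_zero] at h1
  refine squeeze_zero' ?_ ?_ h1
  · filter_upwards [eventually_ge_atTop 3] with n hn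
    exact div_nonneg (mert_pos _).le (by linarith [log_ge_one hn])
  · filter_upwards [eventually_ge_atTop 3, hy] with n hn hyn
    have hL := log_ge_one hn
    have hL0 : 0 < Real.log n := by linarith
    have h2 : Real.sqrt (y n) ≤ Real.sqrt (max C 1) * Real.sqrt (Real.log n) := by
      rw [← Real.sqrt_mul (by positivity)]
      refine Real.sqrt_le_sqrt (hyn.trans ?_)
      exact mul_le_mul_of_nonneg_right (le_max_left _ _) hL0.le
    have h3 : mert (y n) ≤ 1 + 2 * C2 * (Real.sqrt (max C 1) * Real.sqrt (Real.log n)) := by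
      have := mul_le_mul_of_nonneg_left h2 (show 0 ≤ 2 * C2 by positivity)
      linarith [hb (y n)]
    have hs : 0 < Real.sqrt (Real.log n) := Real.sqrt_pos.mpr hL0
    have hss : Real.sqrt (Real.log n) * Real.sqrt (Real.log n) = Real.log n :=
      Real.mul_self_sqrt hL0.le
    have e : 1 / Real.log n + 2 * C2 * Real.sqrt (max C 1) * (1 / Real.sqrt (Real.log n)) =
        (1 + 2 * C2 * (Real.sqrt (max C 1) * Real.sqrt (Real.log n))) / Real.log n := by
      rw [add_div]
      congr 1
      have e3 : 1 / Real.sqrt (Real.log n) = Real.sqrt (Real.log n) / Real.log n := by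
        rw [div_eq_div_iff hs.ne' hL0.ne', hss, one_mul]
      rw [e3]
      ring
    rw [e]
    exact div_le_div_of_nonneg_right h3 hL0.le

/-- `2 ^ π(y n) / √n → 0` -/
lemma pow_lim {y : ℕ → ℕ} {C : ℝ} (hy : ∀ᶠ n : ℕ in atTop, (y n : ℝ) ≤ C * Real.log n) :
    Tendsto (fun n : ℕ => ((2 : ℝ) ^ ((range (y n + 1)).filter Nat.Prime).card) / Real.sqrt n)
      atTop (𝓝 0) := by
  have h1 : Tendsto (fun n : ℕ => (n : ℝ) ^ (-(1 / 4 : ℝ))) atTop (𝓝 0) :=
    (tendsto_rpow_neg_atTop (by norm_num)).comp tendsto_natCast_atTop_atTop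
  obtain ⟨D, hD⟩ : ∃ D, D = max C 1 := ⟨_, rfl⟩
  have hD1 : 1 ≤ D := by rw [hD]; exact le_max_right _ _
  have tx : Tendsto (fun n : ℕ => D * Real.log n) atTop atTop :=
    t_log.const_mul_atTop (by linarith)
  have hpi := tx.eventually (Chebyshev.eventually_primeCounting_le (ε := 1) one_pos)
  have hlx := (Real.tendsto_log_atTop.comp tx).eventually_ge_atTop (12 * D)
  refine squeeze_zero' ?_ ?_ h1
  · exact Eventually.of_forall fun n => by positivity
  · filter_upwards [eventually_ge_atTop 3, hy, hpi, hlx] with n hn hyn hpi hlx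
    simp only [Function.comp] at hlx
    have hL := log_ge_one hn
    have hL0 : 0 < Real.log n := by linarith
    have hnn : (3 : ℝ) ≤ n := by exact_mod_cast hn
    have hn0 : (0 : ℝ) < n := by linarith
    have hyx : (y n : ℝ) ≤ D * Real.log n := by
      refine hyn.trans (mul_le_mul_of_nonneg_right ?_ hL0.le)
      rw [hD]; exact le_max_left _ _
    have h2 : (Nat.primeCounting (y n) : ℝ) ≤ Nat.primeCounting ⌊D * Real.log n⌋₊ := by
      exact_mod_cast Nat.monotone_primeCounting (Nat.le_floor hyx)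
    have h4 : Real.log 4 < 2 := by
      have : (4 : ℝ) = 2 ^ 2 := by norm_num
      rw [this, Real.log_pow]
      have := Real.log_two_lt_d9
      push_cast
      linarith
    have hx0 : 0 < D * Real.log n := by positivity
    have hlx0 : 0 < Real.log (D * Real.log n) := by linarith
    have h5 : (Real.log 4 + 1) * (D * Real.log n) / Real.log (D * Real.log n) ≤
        Real.log n / 4 := by
      rw [div_le_iff₀ hlx0]
      have h6 : (Real.log 4 + 1) * (D * Real.log n) ≤ 3 * (D * Real.log n) :=
        mul_le_mul_of_nonneg_right (by linarith) hx0.le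
      have h7 : Real.log n / 4 * (12 * D) ≤ Real.log n / 4 * Real.log (D * Real.log n) :=
        mul_le_mul_of_nonneg_left hlx (by linarith)
      linarith
    have h8 : (Nat.primeCounting (y n) : ℝ) ≤ Real.log n / 4 := by linarith
    rw [card_pi]
    have h3 : (2 : ℝ) ^ (Nat.primeCounting (y n)) ≤ (n : ℝ) ^ (1 / 4 : ℝ) := by
      rw [← Real.rpow_natCast, Real.rpow_def_of_pos (by norm_num), Real.rpow_def_of_pos hn0]
      apply Real.exp_le_exp.2
      have h9 := Real.log_two_lt_d9
      have h10 : (0 : ℝ) ≤ Nat.primeCounting (y n) := Nat.cast_nonneg _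
      nlinarith
    have h6 : (n : ℝ) ^ (-(1 / 4 : ℝ)) = (n : ℝ) ^ (1 / 4 : ℝ) / Real.sqrt n := by
      rw [Real.sqrt_eq_rpow, ← Real.rpow_sub hn0]
      norm_num
    rw [h6]
    exact div_le_div_of_nonneg_right h3 (Real.sqrt_nonneg _)

end Pool.Agent.CG53
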