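import Pool.Agent.CG53.Model
import Pool.Agent.CY53.Main

/-! The theorem for the sieved random model with a sieving limit `y n = O(log n)`. -/

set_option autoImplicit false

namespace Pool.Agent.CG53

open MeasureTheory ProbabilityTheory Filter Topology Finset Pool.Agent.CR53 Pool.Agent.CY53

/-- the theorem for the product measure -/
theorem sieve_main2 {y : ℕ → ℕ} {C : ℝ} (hy : ∀ᶠ n : ℕ in atTop, (y n : ℝ) ≤ C * Real.log n) :
    ∀ᵐ ω ∂(Measure.infinitePi (coinY y)), Q1 (sqCount {m | ω m = true}) ∧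
      Tendsto (fun n : ℕ => (recSeq (sqCount {m | ω m = true}) n : ℝ) / (n : ℝ) ^ 2) atTop
        (𝓝 (1 / 4)) := by
  obtain ⟨h1, h2, h3⟩ := facts y
  exact model_main (μ := Measure.infinitePi (coinY y))
    (E := fun m : ℕ => {ω : ℕ → Bool | ω m = true}) h1 h2
    (laws_sieve2 (mert_lim2 hy) (pow_lim hy) h1 h2 h3)

end Pool.Agent.CG53
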