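import Pool.Agent.CG53.Lim

/-! The laws of the sieved model with a sieving limit `y n = O(log n)`. -/

set_option autoImplicit false

namespace Pool.Agent.CG53

open MeasureTheory ProbabilityTheory Filter Topology Finset Pool.Agent.CR53 Pool.Agent.CY53

open Pool.Agent.GM53 (mert mert_pos mert_le)

open Pool.Agent.RG88 (pz pz_zero pz_eq one_le_mert cop_count)

variable {Ω : Type*} [mΩ : MeasurableSpace Ω] {μ : Measure Ω} {E : ℕ → Set Ω}

lemma card_blkc2 (z n : ℕ) : |((blkc z n).card : ℝ) - 2 * n / mert z| ≤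
    2 ^ ((range (z + 1)).filter Nat.Prime).card := by
  rw [blkc_eq]
  have h0 : (n + 1) ^ 2 = n ^ 2 + 2 * n + 1 := by ring
  have h := cop_count2 z (u := n ^ 2 + 1) (v := (n + 1) ^ 2) (by omega)
  have e : ((((n + 1) ^ 2 : ℕ) : ℝ) - ((n ^ 2 + 1 : ℕ) : ℝ)) = 2 * n := by
    push_cast
    ring
  rw [e] at h
  exact h

theorem laws_sieve2 [IsProbabilityMeasure μ] {y : ℕ → ℕ}
    (hml : Tendsto (fun n : ℕ => mert (y n) / Real.log n) atTop (𝓝 0))
    (hpl : Tendsto (fun n : ℕ =>
      ((2 : ℝ) ^ ((range (y n + 1)).filter Nat.Prime).card) / Real.sqrt n) atTop (𝓝 0))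
    (hE : ∀ m, MeasurableSet (E m))
    (hi : iIndepSet E μ) (hp : ∀ m, μ.real (E m) = pz (y (Nat.sqrt m)) m) :
    LawsZ (fun n => law μ E (blk n)) := by
  refine ⟨fun n i => measureReal_nonneg, fun n i h => ?_, fun n => ?_, ?_⟩
  · have h1 : {ω | cnt E (blk n) ω = i} = ∅ := by
      ext ω
      simp only [Set.mem_ofPred_eq, Set.mem_empty_iff_false, iff_false]
      have := cnt_le (E := E) (blk n) ω
      rw [blk_card] at this
      omega
    show μ.real {ω | cnt E (blk n) ω = i} = 0
    rw [h1]; simp
  · show ∑ i ∈ range (2 * n + 1), law μ E (blk n) i = 1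
    rw [sum_law hE]
    have h1 : {ω | cnt E (blk n) ω ≤ 2 * n} = Set.univ := by
      ext ω
      simp only [Set.mem_ofPred_eq, Set.mem_univ, iff_true]
      have := cnt_le (E := E) (blk n) ω
      rwa [blk_card] at this
    rw [h1]; simp
  refine ⟨fun n => (blkc (y n) n).card, fun n => mert (y n) / (2 * Real.log (n + 1) - mert (y n)),
    fun n => mert (y n) / (2 * Real.log n - mert (y n)), 
    fun n => (2 : ℝ) ^ ((range (y n + 1)).filter Nat.Prime).card, ?_, hpl, ?_⟩
  · have h1 : Tendsto (fun n : ℕ => (mert (y n) / Real.log n) / (2 - mert (y n) / Real.log n))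
        atTop (𝓝 (0 / (2 - 0))) :=
      hml.div (tendsto_const_nhds.sub hml) (by norm_num)
    rw [zero_div] at h1
    refine h1.congr' ?_
    filter_upwards [eventually_ge_atTop 3] with n hn
    have hL := log_ge_one hn
    have h2 : Real.log n ≠ 0 := by linarith
    have e : 2 - mert (y n) / Real.log n = (2 * Real.log n - mert (y n)) / Real.log n := by
      field_simp
    rw [e, div_div_div_cancel_right₀ h2]
  filter_upwards [eventually_ge_atTop 3,
    hml.eventually_lt_const (show (0 : ℝ) < 1 / 2 by norm_num), t_log.eventually_ge_atTop 2]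
    with n hn hml2 hlog2
  have hM0 : 0 < mert (y n) := mert_pos (y n)
  have hM1 : 1 ≤ mert (y n) := one_le_mert (y n)
  obtain ⟨M, hM⟩ : ∃ M, M = mert (y n) := ⟨_, rfl⟩
  rw [← hM] at hM0 hM1 hml2
  rw [← hM]
  obtain ⟨R, hR⟩ : ∃ R : ℝ, R = (2 : ℝ) ^ ((range (y n + 1)).filter Nat.Prime).card :=
    ⟨_, rfl⟩
  have hP1 : 1 ≤ R := by rw [hR]; exact one_le_pow₀ (by norm_num)
  have hn3 : (3 : ℝ) ≤ n := by exact_mod_cast hn
  rw [div_lt_iff₀ (by linarith)] at hml2
  have hL1 : M + 1 ≤ Real.log n := by linarith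
  have hL' : Real.log n ≤ Real.log (n + 1) := log_succ_ge n (by omega)
  have hd := log_succ_sub n (by omega)
  have hwm : 0 < M / (2 * Real.log (n + 1) - M) := div_pos hM0 (by linarith)
  have hwp : 0 < M / (2 * Real.log n - M) := div_pos hM0 (by linarith)
  have key : ∀ m ∈ blkc (y n) n, 2 * Real.log n < Real.log m ∧ Real.log m ≤ 2 * Real.log (n + 1)
      ∧ μ.real (E m) = M / Real.log m := by
    intro m hm
    unfold blkc at hm
    rw [mem_filter] at hm
    obtain ⟨hm, hc⟩ := hm
    have hsq := sqrt_blk hm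
    unfold blk at hm
    rw [mem_Ioo] at hm
    have h3 : 3 ≤ m := by nlinarith [hm.1]
    have hm1 : ((n : ℝ)) ^ 2 < m := by exact_mod_cast hm.1
    have hm2 : (m : ℝ) ≤ ((n : ℝ) + 1) ^ 2 := by exact_mod_cast hm.2.le
    have hl : 2 * Real.log n < Real.log m := by
      have : Real.log ((n : ℝ) ^ 2) < Real.log m := Real.log_lt_log (by positivity) hm1
      rwa [Real.log_pow, Nat.cast_ofNat] at this
    refine ⟨hl, ?_, ?_⟩
    · have : Real.log m ≤ Real.log (((n : ℝ) + 1) ^ 2) :=
        Real.log_le_log (by linarith [sq_nonneg (n : ℝ)]) hm2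
      rwa [Real.log_pow, Nat.cast_ofNat] at this
    · rw [hp m, hsq, pz_eq h3 (by rw [← hM]; linarith), if_pos hc, ← hM]
  have hr : Ratio (law μ E (blkc (y n) n)) ((blkc (y n) n).card : ℝ)
      (M / (2 * Real.log (n + 1) - M)) (M / (2 * Real.log n - M)) := by
    refine law_ratio hE hi (blkc (y n) n) rfl ?_ ?_
    · intro m hm
      obtain ⟨h1, h2, h3⟩ := key m hm
      rw [h3]
      have hl : M + 1 < Real.log m := by linarith
      have hl' : 0 < 2 * Real.log (n + 1) - M := by linarith
      have hlp : 0 < Real.log m := by linarith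
      have hlne : Real.log m ≠ 0 := hlp.ne'
      have e : 1 - M / Real.log m = (Real.log m - M) / Real.log m := by
        rw [sub_div, div_self hlne]
      rw [e, div_mul_div_comm, div_le_div_iff₀ (by positivity) (by linarith)]
      have : (M * Real.log m) * (Real.log m - M) ≤
          (M * Real.log m) * (2 * Real.log (n + 1) - M) :=
        mul_le_mul_of_nonneg_left (by linarith) (by positivity)
      linarith
    · intro m hm
      obtain ⟨h1, h2, h3⟩ := key m hm
      rw [h3]
      have hl : M + 1 < Real.log m := by linarith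
      have hl' : 0 < 2 * Real.log n - M := by linarith
      have hlp : 0 < Real.log m := by linarith
      have hlne : Real.log m ≠ 0 := hlp.ne'
      have e : 1 - M / Real.log m = (Real.log m - M) / Real.log m := by
        rw [sub_div, div_self hlne]
      rw [e, div_mul_div_comm, div_le_div_iff₀ (by linarith) (by positivity)]
      have : (M * Real.log m) * (2 * Real.log n - M) ≤
          (M * Real.log m) * (Real.log m - M) :=
        mul_le_mul_of_nonneg_left (by linarith) (by positivity)
      linarith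
  obtain ⟨T, hT⟩ : ∃ T : ℝ, T = ((blkc (y n) n).card : ℝ) := ⟨_, rfl⟩
  have hT0 : 0 ≤ T := by rw [hT]; exact Nat.cast_nonneg _
  have hT1 : |T - 2 * n / M| ≤ R := by rw [hT, hM, hR]; exact card_blkc2 (y n) n
  have hT2 : T ≤ 2 * n := by rw [hT]; exact_mod_cast card_blkc_le (y n) n
  have eP : M / (2 * Real.log n - M) * T / (1 + M / (2 * Real.log n - M)) =
      T * M / (2 * Real.log n) := by
    have h1 : 2 * Real.log n - M ≠ 0 := by linarith
    have h2 : Real.log n ≠ 0 := by linarith
    have h3 : 1 + M / (2 * Real.log n - M) = 2 * Real.log n / (2 * Real.log n - M) := by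
      field_simp; ring
    rw [h3]
    field_simp
  have eM : M / (2 * Real.log (n + 1) - M) * T / (1 + M / (2 * Real.log (n + 1) - M)) =
      T * M / (2 * Real.log (n + 1)) := by
    have h1 : 2 * Real.log (n + 1) - M ≠ 0 := by linarith
    have h2 : Real.log (n + 1) ≠ 0 := by linarith
    have h3 : 1 + M / (2 * Real.log (n + 1) - M) =
        2 * Real.log (n + 1) / (2 * Real.log (n + 1) - M) := by
      field_simp; ring
    rw [h3]
    field_simp
  rw [← hR]
  refine ⟨?_, hwm, hwp, hP1, ?_, ?_, ?_, ?_⟩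
  · show Ratio (law μ E (blk n)) _ _ _
    rw [law_blkc y hp n]
    exact hr
  · show ∑ i ∈ range ((blkc (y n) n).card + 1), law μ E (blk n) i = 1
    rw [law_blkc y hp n, sum_law hE]
    have h1 : {ω | cnt E (blkc (y n) n) ω ≤ (blkc (y n) n).card} = Set.univ := by
      ext ω
      simp only [Set.mem_ofPred_eq, Set.mem_univ, iff_true]
      exact cnt_le (E := E) (blkc (y n) n) ω
    rw [h1]; simp
  · rw [← hT, eP]
    have e1 : T * M / (2 * Real.log n) - mu n = (T - 2 * n / M) * (M / (2 * Real.log n)) := by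
      unfold mu
      have h2 : Real.log n ≠ 0 := by linarith
      field_simp
    have h3 : 0 ≤ M / (2 * Real.log n) := by
      apply div_nonneg hM0.le
      linarith
    have h3' : M / (2 * Real.log n) ≤ 1 := by
      rw [div_le_one (by linarith)]
      linarith
    rw [e1, abs_mul, abs_of_nonneg h3]
    have h4 : |T - 2 * n / M| * (M / (2 * Real.log n)) ≤
        R * 1 := mul_le_mul hT1 h3' h3 (by linarith)
    linarith
  · rw [← hT, eP, eM]
    exact div_le_div_of_nonneg_left (by positivity) (by linarith) (by linarith)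
  · rw [← hT, eP, eM, div_sub_div _ _ (by linarith) (by linarith),
      div_le_one (mul_pos (by linarith) (by linarith))]
    have h5 : T * (Real.log (n + 1) - Real.log n) ≤ 2 := by
      have h6 : T * (Real.log (n + 1) - Real.log n) ≤ 2 * n * (1 / n) :=
        mul_le_mul hT2 hd (by linarith) (by linarith)
      have h7 : 2 * (n : ℝ) * (1 / n) = 2 := by field_simp
      linarith
    have h8 : T * M * (2 * Real.log (n + 1)) - 2 * Real.log n * (T * M) =
        2 * M * (T * (Real.log (n + 1) - Real.log n)) := by ring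
    rw [h8]
    have h9 : 2 * M * (T * (Real.log (n + 1) - Real.log n)) ≤ 2 * M * 2 :=
      mul_le_mul_of_nonneg_left h5 (by linarith)
    have h10 : M ≤ Real.log n := by linarith
    have h11 : 1 ≤ Real.log (n + 1) := by linarith
    nlinarith [mul_le_mul h10 h11 zero_le_one (by linarith : (0 : ℝ) ≤ Real.log n)]

end Pool.Agent.CG53
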